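import Mathlib

set_option autoImplicit false

namespace Pool.Agent.Results.MP_10bb55_an.NoRepelling

open MvPolynomial Complex

noncomputable def chartMap (F : Fin 3 → MvPolynomial (Fin 3) ℂ) (i : Fin 3) (x : Fin 3 → ℂ) :
    Fin 3 → ℂ := fun j => eval x (F j) / eval x (F i)

noncomputable def F0 : Fin 3 → MvPolynomial (Fin 3) ℂ :=
  ![X 0 * X 2 + C (1 / 2) * (X 1 * X 1 - X 2 * X 2),
    X 1 * X 2 + C (I / 4) * (X 0 * X 0 - X 2 * X 2), X 2 * X 2]

noncomputable def G (x : Fin 3 → ℂ) : Fin 3 → ℂ :=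
  ![x 0 * x 2 + 1 / 2 * (x 1 * x 1 - x 2 * x 2), x 1 * x 2 + I / 4 * (x 0 * x 0 - x 2 * x 2),
    x 2 * x 2]

noncomputable def DG (x v : Fin 3 → ℂ) : Fin 3 → ℂ :=
  ![x 0 * v 2 + x 2 * v 0 + (x 1 * v 1 - x 2 * v 2),
    x 1 * v 2 + x 2 * v 1 + I / 2 * (x 0 * v 0 - x 2 * v 2), 2 * x 2 * v 2]

theorem ev (x : Fin 3 → ℂ) (j : Fin 3) : eval x (F0 j) = G x j := by
  fin_cases j <;> simp [F0, G]

theorem hG (x : Fin 3 → ℂ) (j : Fin 3) :
    ∃ L : (Fin 3 → ℂ) →L[ℂ] ℂ, HasFDerivAt (fun y => G y j) L x ∧ ∀ v, L v = DG x v j := by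
  have h : ∀ a b : Fin 3, HasFDerivAt (fun y : Fin 3 → ℂ => y a * y b) _ x := fun a b =>
    (hasFDerivAt_apply (𝕜 := ℂ) a x).mul (hasFDerivAt_apply b x)
  fin_cases j
  · exact ⟨_, (h 0 2).add (((h 1 1).sub (h 2 2)).const_mul (1 / 2)), fun v => by simp [DG]; ring⟩
  · exact ⟨_, (h 1 2).add (((h 0 0).sub (h 2 2)).const_mul (I / 4)), fun v => by simp [DG]; ring⟩
  · exact ⟨_, h 2 2, fun v => by simp [DG]; ring⟩

theorem fd (i : Fin 3) (p v : Fin 3 → ℂ) (h : G p i ≠ 0) (j : Fin 3) :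
    fderiv ℂ (chartMap F0 i) p v j = DG p v j / G p i - G p j * DG p v i / G p i ^ 2 := by
  choose L hL hv using hG p
  have h1 : HasFDerivAt (chartMap F0 i) _ p := hasFDerivAt_pi.2 fun j =>
    ((hL j).mul ((hasDerivAt_inv h).comp_hasFDerivAt p (hL i))).congr_of_eventuallyEq
      (Filter.Eventually.of_forall fun y => by simp [chartMap, ev, div_eq_mul_inv])
  rw [h1.fderiv]
  simp [hv]
  ring

theorem result : ∃ (d : ℕ) (F : Fin 3 → MvPolynomial (Fin 3) ℂ), 2 ≤ d ∧
    (∀ j, (F j).IsHomogeneous d) ∧ (∀ z, (∀ j, eval z (F j) = 0) → z = 0) ∧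
    ∀ (i : Fin 3) (p : Fin 3 → ℂ), p i = 1 → chartMap F i p = p →
      ∃ (μ : ℂ) (v : Fin 3 → ℂ), ‖μ‖ < 1 ∧ v ≠ 0 ∧ v i = 0 ∧
        fderiv ℂ (chartMap F i) p v = μ • v := by
  have hX : ∀ a b : Fin 3, (X a * X b : MvPolynomial (Fin 3) ℂ).IsHomogeneous 2 := fun a b =>
    (isHomogeneous_X ℂ a).mul (isHomogeneous_X ℂ b)
  refine ⟨2, F0, le_rfl, fun j => ?_, fun z h => ?_, fun i p hi hp => ?_⟩
  · fin_cases j
    · exact (hX 0 2).add (((hX 1 1).sub (hX 2 2)).C_mul _)
    · exact (hX 1 2).add (((hX 0 0).sub (hX 2 2)).C_mul _)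
    · exact hX 2 2
  · have h0 := h 0
    have h1 := h 1
    have h2 := h 2
    simp [ev, G] at h2
    simp [ev, G, h2] at h0 h1
    ext j
    fin_cases j <;> simp [h0, h1, h2]
  · have hk : G p i ≠ 0 := fun h => by
      have := congrFun hp i
      simp [chartMap, ev, h, hi] at this
    have hf : ∀ j, G p j = G p i * p j := fun j => by
      have := congrFun hp j
      simp only [chartMap, ev] at this
      rw [← this]
      field_simp
    suffices H : ∃ (μ c : ℂ) (u : Fin 3 → ℂ), ‖μ‖ < 1 ∧ (∀ a : ℂ, u ≠ a • p) ∧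
        ∀ j, DG p u j = μ * G p i * u j + c * p j by
      obtain ⟨μ, c, u, h1, h2, h3⟩ := H
      refine ⟨μ, u - u i • p, h1, sub_ne_zero.2 (h2 _), by simp [hi], funext fun j => ?_⟩
      have e : ∀ j, DG p (u - u i • p) j = DG p u j - 2 * u i * G p j := fun j => by
        fin_cases j <;> simp [DG, G] <;> ring
      rw [fd i p _ hk, e, e, h3, h3, hf j, hi]
      simp
      field_simp
      ring
    generalize G p i = κ at hk hf
    have f0 := hf 0
    have f1 := hf 1
    have f2 := hf 2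
    simp only [G, Matrix.cons_val_zero, Matrix.cons_val_one, Matrix.cons_val_two, Matrix.tail_cons,
      Matrix.head_cons] at f0 f1 f2
    by_cases ht : p 2 = 0
    · refine ⟨0, 1, ![0, 0, 1], by simp, fun a h => ?_, fun j => ?_⟩
      · simpa [ht] using congrFun h 2
      · fin_cases j <;> simp [DG, ht]
    · obtain rfl : κ = p 2 := (mul_right_cancel₀ ht f2).symm
      have g1 : (p 1 - p 2) * (p 1 + p 2) = 0 := by linear_combination 2 * f0
      have g0 : (p 0 - p 2) * (p 0 + p 2) = 0 := by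
        linear_combination (-4 * I) * f1 + (p 0 * p 0 - p 2 * p 2) * I_mul_I
      have key : ∀ s : ℂ, s = 1 ∨ s = -1 → p 0 * p 1 = s * p 2 ^ 2 → ∃ (μ c : ℂ) (u : Fin 3 → ℂ),
          ‖μ‖ < 1 ∧ (∀ a : ℂ, u ≠ a • p) ∧ ∀ j, DG p u j = μ * p 2 * u j + c * p j := by
        intro s hs h
        refine ⟨(1 - s * I) / 2, 0, ![p 1, -(1 + s * I) / 2 * p 2, 0], ?_, fun a h => ?_, fun j => ?_⟩
        · rw [← sq_lt_one_iff₀ (norm_nonneg _), Complex.sq_norm]
          rcases hs with rfl | rfl <;> simp [normSq_apply] <;> norm_num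
        · have h2 := congrFun h 2
          have h1 := congrFun h 1
          simp [ht] at h2
          simp [ht, h2] at h1
          have := congrArg Complex.re h1
          rcases hs with rfl | rfl <;> simp at this
        · fin_cases j
          · simp [DG]
            ring
          · simp [DG]
            rcases hs with rfl | rfl
            · linear_combination (I / 2) * h + (-(p 2) ^ 2 / 4) * I_mul_I
            · linear_combination (I / 2) * h + (-(p 2) ^ 2 / 4) * I_mul_I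
          · simp [DG]
      rcases mul_eq_zero.1 g0 with a | a <;> rcases mul_eq_zero.1 g1 with b | b
      · exact key 1 (Or.inl rfl) (by linear_combination p 1 * a + p 2 * b)
      · exact key (-1) (Or.inr rfl) (by linear_combination p 1 * a + p 2 * b)
      · exact key (-1) (Or.inr rfl) (by linear_combination p 1 * a - p 2 * b)
      · exact key 1 (Or.inl rfl) (by linear_combination p 1 * a - p 2 * b)

end Pool.Agent.Results.MP_10bb55_an.NoRepelling
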